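import Mathlib
import Pool.Agent.KS6_2.FN.Count

/-!
# The components of the Fano scheme of `10`-planes in the variety of `5 × 5` matrices of rank `≤ 3`

Over every algebraically closed field the Fano scheme `F_10(D^4_{5,5})` has exactly two connected
components and exactly four irreducible components; the same is worked out for `F_k(D^4_{5,5})`,
for all `k ≥ 10`.
-/

set_option autoImplicit false

open Module Matrix

universe u

namespace Pool.Agent.Results.MP_d51aa1_ag.ComponentCount

open Pool.Agent.KS6_2.FN

/-- The space `V` of `5 × 5` matrices is a compression space of type `(p, q)`: there are subspaces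
`U` and `W` of `K^5`, of dimensions `p` and `q`, with `w ⬝ B u = 0` for all `B` in `V`, `u` in `U`
and `w` in `W`. -/
def IsCompression {K : Type u} [Field K] (p q : ℕ)
    (V : Submodule K (Matrix (Fin 5) (Fin 5) K)) : Prop :=
  ∃ U W : Submodule K (Fin 5 → K), finrank K U = p ∧ finrank K W = q ∧
    ∀ B ∈ V, ∀ u ∈ U, ∀ w ∈ W, w ⬝ᵥ (B *ᵥ u) = 0

/-- The family of the compression spaces of type `(p, q)`, as a subset of the Fano scheme
`F_{n-1}(D^4_{5,5})`. -/
def Family (n : ℕ) (K : Type u) [Field K] (p q : ℕ) : Set (Fano n K) :=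
  {V | IsCompression p q V.1.1}

lemma exists_le_finrank {K : Type u} [Field K] (p : ℕ) (U : Submodule K (Fin 5 → K))
    (h : p ≤ finrank K U) : ∃ U' : Submodule K (Fin 5 → K), U' ≤ U ∧ finrank K U' = p := by
  let b := Module.finBasis K U
  let e : Fin p → U := fun i => b (Fin.castLE h i)
  have he : LinearIndependent K e :=
    b.linearIndependent.comp _ (Fin.castLE_injective h)
  have he2 : LinearIndependent K (fun i => (e i : Fin 5 → K)) :=
    he.map' U.subtype (Submodule.ker_subtype U)
  refine ⟨Submodule.span K (Set.range fun i => (e i : Fin 5 → K)), ?_, ?_⟩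
  · rw [Submodule.span_le]
    rintro _ ⟨i, rfl⟩
    exact (e i).2
  · rw [finrank_span_eq_card he2, Fintype.card_fin]

lemma isCompression_iff {K : Type u} [Field K] (p q : ℕ)
    (V : Submodule K (Matrix (Fin 5) (Fin 5) K)) : IsCompression p q V ↔ Comp p q V := by
  constructor
  · rintro ⟨U, W, hU, hW, h⟩
    exact ⟨U, W, hU.ge, hW.ge, h⟩
  · rintro ⟨U, W, hU, hW, h⟩
    obtain ⟨U', hU'U, hU'⟩ := exists_le_finrank p U hU
    obtain ⟨W', hW'W, hW'⟩ := exists_le_finrank q W hW
    exact ⟨U', W', hU', hW', fun B hB u hu w hw => h B hB u (hU'U hu) w (hW'W hw)⟩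

lemma family_eq (n : ℕ) (K : Type u) [Field K] (p q : ℕ) : Family n K p q = T n K p q := by
  ext V
  exact isCompression_iff p q V.1.1

lemma range_Z (n : ℕ) (K : Type u) [Field K] : Set.range (Z n K) =
    {Family n K 5 2, Family n K 4 3, Family n K 3 4, Family n K 2 5} := by
  simp only [family_eq]
  ext S
  simp only [Z, Set.mem_range, Set.mem_insert_iff, Set.mem_singleton_iff]
  constructor
  · rintro ⟨i, rfl⟩
    fin_cases i
    · exact Or.inl rfl
    · exact Or.inr (Or.inl rfl)
    · exact Or.inr (Or.inr (Or.inl rfl))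
    · exact Or.inr (Or.inr (Or.inr rfl))
  · rintro (rfl | rfl | rfl | rfl)
    · exact ⟨0, rfl⟩
    · exact ⟨1, rfl⟩
    · exact ⟨2, rfl⟩
    · exact ⟨3, rfl⟩

lemma range_X (n : ℕ) (K : Type u) [Field K] : Set.range (X n K) =
    {Family n K 5 2, Family n K 2 5} := by
  simp only [family_eq]
  ext S
  simp only [X, Set.mem_range, Set.mem_insert_iff, Set.mem_singleton_iff]
  constructor
  · rintro ⟨i, rfl⟩
    fin_cases i
    · exact Or.inl rfl
    · exact Or.inr rfl
  · rintro (rfl | rfl)
    · exact ⟨0, rfl⟩
    · exact ⟨1, rfl⟩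

/-- Let `K` be an algebraically closed field of any characteristic, and for `n ≥ 1` let
`Fano n K` be the space of the points of the Fano scheme `F_{n-1}(D^4_{5,5})` of the projective
`(n-1)`-planes in the variety of `5 × 5` matrices of rank at most `3`.

* The Fano scheme `F_10(D^4_{5,5})` has exactly two connected components, namely the closed set of
  the compression spaces of type `(5, 2)` or `(4, 3)` and the closed set of the compression spaces
  of type `(3, 4)` or `(2, 5)`.
* For `k = 10, 11, 12` the Fano scheme `F_k(D^4_{5,5})` has exactly four irreducible components,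
  the families of the compression spaces of the types `(5, 2)`, `(4, 3)`, `(3, 4)`, `(2, 5)`.
* For `k = 11, 12` it has exactly four connected components.
* For `k = 13, 14` it has exactly two irreducible components, the families of the compression
  spaces of the types `(5, 2)` and `(2, 5)`, and exactly two connected components.
* For `k ≥ 15` it is empty. -/
theorem result (K : Type u) [Field K] [IsAlgClosed K] :
    (Nat.card (ConnectedComponents (Fano 11 K)) = 2 ∧
      IsClosed (Family 11 K 5 2 ∪ Family 11 K 4 3) ∧
      IsClosed (Family 11 K 3 4 ∪ Family 11 K 2 5) ∧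
      IsConnected (Family 11 K 5 2 ∪ Family 11 K 4 3) ∧
      IsConnected (Family 11 K 3 4 ∪ Family 11 K 2 5) ∧
      Disjoint (Family 11 K 5 2 ∪ Family 11 K 4 3) (Family 11 K 3 4 ∪ Family 11 K 2 5) ∧
      (Family 11 K 5 2 ∪ Family 11 K 4 3) ∪ (Family 11 K 3 4 ∪ Family 11 K 2 5) = Set.univ) ∧
    (∀ n : ℕ, n = 11 ∨ n = 12 ∨ n = 13 →
      irreducibleComponents (Fano n K) =
          {Family n K 5 2, Family n K 4 3, Family n K 3 4, Family n K 2 5} ∧
        (irreducibleComponents (Fano n K)).ncard = 4) ∧
    (∀ n : ℕ, n = 12 ∨ n = 13 → Nat.card (ConnectedComponents (Fano n K)) = 4) ∧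
    (∀ n : ℕ, n = 14 ∨ n = 15 →
      irreducibleComponents (Fano n K) = {Family n K 5 2, Family n K 2 5} ∧
        (irreducibleComponents (Fano n K)).ncard = 2 ∧
        Nat.card (ConnectedComponents (Fano n K)) = 2) ∧
    (∀ n : ℕ, 16 ≤ n → Fano n K = ∅) := by
  refine ⟨?_, ?_, ?_, ?_, fun n hn => fano_empty hn⟩
  · simp only [family_eq]
    refine ⟨conn_card_11, closed_T52.union closed_T43, closed_T34.union closed_T25, conn_left,
      conn_right, disj_left_right, ?_⟩
    rw [Set.eq_univ_iff_forall]
    intro V
    rcases cover le_rfl V with h | h | h | h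
    · exact Or.inl (Or.inl h)
    · exact Or.inl (Or.inr h)
    · exact Or.inr (Or.inl h)
    · exact Or.inr (Or.inr h)
  · intro n hn
    rw [← range_Z]
    exact ⟨irr_eq (by omega) (by omega), irr_card (by omega) (by omega)⟩
  · intro n hn
    exact conn_card_mid (by omega) (by omega)
  · intro n hn
    rw [← range_X]
    exact ⟨irr_eq_high (by omega) (by omega), irr_card_high (by omega) (by omega),
      conn_card_high (by omega) (by omega)⟩

end Pool.Agent.Results.MP_d51aa1_ag.ComponentCount
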